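import Pool.Agent.W2helper22.AL.Up

set_option autoImplicit false

/-!
# Project AL, piece THR: threshold functions without NOT gates
-/

namespace Pool.Agent.W2helper68.AL

open Pool.Agent.W2helper22.AL

lemma thr_nil_zero {I : Type} : thr ([] : List I) 0 = fun _ => true := by
  funext x
  simp [thr]

lemma thr_nil_succ {I : Type} (k : ℕ) : thr ([] : List I) (k + 1) = fun _ => false := by
  funext x
  simp [thr]

lemma thr_zero {I : Type} (l : List I) : thr l 0 = fun _ => true := by
  funext x
  simp [thr]

lemma thr_big {I : Type} (l : List I) (k : ℕ) (h : l.length < k) : thr l k = fun _ => false := by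
  funext x
  have h1 : l.countP (fun p => x p) ≤ l.length := List.countP_le_length
  simp only [thr, decide_eq_false_iff_not]
  omega

lemma thr_cons {I : Type} (p : I) (l : List I) (j : ℕ) :
    thr (p :: l) (j + 1) = fun x => thr l (j + 1) x || (x p && thr l j x) := by
  funext x
  simp only [thr, List.countP_cons]
  cases h : x p
  · simp
  · simp only [Bool.true_and, if_true]
    rw [Bool.eq_iff_iff]
    simp only [decide_eq_true_eq, Bool.or_eq_true]
    omega

theorem thr_ok : S_THR := by
  intro I h s c F l
  induction l generalizing s with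
  | nil =>
    intro hA
    have h1 := (hA.const true).const false
    refine h1.mono ?_ (fun _ => le_rfl) ?_
    · simp only [List.length_nil]
      omega
    · rintro q (hq | ⟨k, rfl⟩)
      · exact ⟨q.2, le_rfl, Or.inr (Or.inr hq)⟩
      · refine ⟨0, le_rfl, ?_⟩
        rcases k with _ | k
        · rw [thr_nil_zero]
          exact Or.inr (Or.inl rfl)
        · rw [thr_nil_succ]
          exact Or.inl rfl
  | cons p l ih =>
    intro hA
    have h1 := (ih s hA).inp p
    have hin : ∀ k, (thr l k, 0) ∈ insert ((fun x : I → Bool => x p), 0)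
        (F ∪ {q | ∃ k, q = (thr l k, 0)}) := fun k => Or.inr (Or.inr ⟨k, rfl⟩)
    have h2 := Av.family (r := 2) (fun j => (thr (p :: l) (j + 1), 0)) (l.length + 1) h1
      (fun s' F' j _ hF' _ hA' => by
        have a1 := hA'.and (f := fun x => x p) (g := thr l j) (l := 0) (hF' (Or.inl rfl))
          (hF' (hin j)) (Nat.zero_le h)
        have a2 := a1.or (f := thr l (j + 1)) (g := fun x => x p && thr l j x) (l := 0)
          (Or.inr (hF' (hin (j + 1)))) (Or.inl rfl) (Nat.zero_le h)
        refine a2.mono (by omega) (fun _ => le_rfl) ?_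
        rintro q (rfl | hq)
        · refine ⟨0, le_rfl, ?_⟩
          dsimp only
          rw [thr_cons]
          exact Or.inl rfl
        · exact ⟨q.2, le_rfl, Or.inr (Or.inr hq)⟩)
    refine h2.mono ?_ (fun _ => le_rfl) ?_
    · simp only [List.length_cons]
      nlinarith
    · rintro q (hq | ⟨k, rfl⟩)
      · exact ⟨q.2, le_rfl, Or.inl (Or.inr (Or.inl hq))⟩
      · refine ⟨0, le_rfl, ?_⟩
        rcases k with _ | j
        · rw [thr_zero, ← thr_zero l]
          exact Or.inl (hin 0)
        · rcases Nat.lt_or_ge j (l.length + 1) with hj | hj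
          · exact Or.inr ⟨j, hj, rfl⟩
          · rw [thr_big _ _ (by simp only [List.length_cons]; omega),
              ← thr_big l (j + 1) (by omega)]
            exact Or.inl (hin (j + 1))

end Pool.Agent.W2helper68.AL
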